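import Mathlib
import Pool.Agent.Helper26.DMU.TRC
import Pool.Agent.Helper26.DMC.EX

/-!
# Dynamical Mordell-Lang for polynomial maps which contract their critical components
-/

set_option autoImplicit false

namespace Pool.Agent.Results.MP_295d38_ag.ContractedCritical

open MvPolynomial

variable {N : ℕ}

/-- The self-map of `ℂ^N` given by `N` polynomials. -/
noncomputable def polyMap (Φ : Fin N → MvPolynomial (Fin N) ℂ) (x : Fin N → ℂ) : Fin N → ℂ :=
  fun i => eval x (Φ i)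

/-- The polynomials giving the coordinates of the `m`-th iterate of `Φ`. -/
noncomputable def iterPoly (Φ : Fin N → MvPolynomial (Fin N) ℂ) :
    ℕ → Fin N → MvPolynomial (Fin N) ℂ
  | 0 => X
  | m + 1 => fun i => bind₁ (iterPoly Φ m) (Φ i)

/-- The Jacobian determinant of `Φ`; its zero set is the critical locus of `Φ`. -/
noncomputable def jacobian (Φ : Fin N → MvPolynomial (Fin N) ℂ) : MvPolynomial (Fin N) ℂ :=
  (Matrix.of fun i j => pderiv j (Φ i)).det

/-- The orbit of `α` under `Φ` is Zariski dense in `𝔸^N`. -/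
def DenseOrbit (Φ : Fin N → MvPolynomial (Fin N) ℂ) (α : Fin N → ℂ) : Prop :=
  ∀ P : MvPolynomial (Fin N) ℂ, P ≠ 0 → ∃ n, eval ((polyMap Φ)^[n] α) P ≠ 0

/-- Some iterate `Φ^m`, `m ≥ 1`, contracts the hypersurface `h = 0` to a point `β` with Zariski
dense orbit: `Φ^m - β` is divisible by `h` (in each coordinate). -/
def Contracted (Φ : Fin N → MvPolynomial (Fin N) ℂ) (h : MvPolynomial (Fin N) ℂ) : Prop :=
  ∃ (m : ℕ) (β : Fin N → ℂ), 0 < m ∧ (∀ i, h ∣ iterPoly Φ m i - C (β i)) ∧ DenseOrbit Φ β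

/-- All components of the critical locus of `Φ` are contracted to points with dense orbits. -/
def CriticalContracted (Φ : Fin N → MvPolynomial (Fin N) ℂ) : Prop :=
  jacobian Φ ≠ 0 ∧ ∀ g, Irreducible g → g ∣ jacobian Φ → Contracted Φ g

/-- The return set `{n : Φⁿ(α) ∈ V}` for the closed subvariety `V` of `𝔸^N` cut out by the
polynomials of the set `V`. -/
def returnSet (Φ : Fin N → MvPolynomial (Fin N) ℂ) (α : Fin N → ℂ)
    (V : Set (MvPolynomial (Fin N) ℂ)) : Set ℕ :=
  {n | ∀ G ∈ V, eval ((polyMap Φ)^[n] α) G = 0}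

section bridge

variable (Φ : Fin N → MvPolynomial (Fin N) ℂ)

open Pool.Agent.Helper26

lemma iterPoly_eq (m : ℕ) : iterPoly Φ m = DMC.iter Φ m := by
  induction m with
  | zero => rfl
  | succ m ih => simp only [iterPoly, DMC.iter, ih]

lemma contracted_iff (h : MvPolynomial (Fin N) ℂ) : Contracted Φ h ↔
    ∃ m β, 0 < m ∧ DMC.Contr Φ h m β ∧ DMC.Dense Φ β := by
  unfold Contracted DMC.Contr
  simp only [iterPoly_eq]
  rfl

end bridge

/-- **Dynamical Mordell-Lang for polynomial maps contracting their critical components**, and for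
dense orbits of polynomial maps contracting one hypersurface. -/
theorem result (N : ℕ) (Φ : Fin N → MvPolynomial (Fin N) ℂ) (α : Fin N → ℂ)
    (hα : CriticalContracted Φ ∨
      (DenseOrbit Φ α ∧ ∃ h : MvPolynomial (Fin N) ℂ, (∀ c, h ≠ C c) ∧ Contracted Φ h)) :
    ∃ L : ℕ, 0 < L ∧ ∀ V : Set (MvPolynomial (Fin N) ℂ), ∃ E A : Finset ℕ,
      returnSet Φ α V = {n : ℕ | n ∈ E ∨ ∃ a ∈ A, ∃ k : ℕ, n = a + L * k} := by
  rcases hα with ⟨hJ, hall⟩ | ⟨hα, h, hh, hcontr⟩
  · exact Pool.Agent.Helper26.DMU.full_CC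
      ⟨hJ, fun g h1 h2 => (contracted_iff Φ g).mp (hall g h1 h2)⟩ α
  · obtain ⟨m, β, hm, hc, hβ⟩ := (contracted_iff Φ h).mp hcontr
    exact ⟨1, one_pos, Pool.Agent.Helper26.DMC.dense_case (RingHom.id ℂ) fun P hP =>
      Pool.Agent.Helper26.DMU.finite_of_dense_complex hh hm hc hβ hα hP⟩

/-- The map `(x, y, z) ↦ (1 + x y, x z, x)`. -/
noncomputable def exampleMap : Fin 3 → MvPolynomial (Fin 3) ℂ :=
  ![1 + X 0 * X 1, X 0 * X 2, X 0]

/-- An example: the map `(x, y, z) ↦ (1 + x y, x z, x)` satisfies the hypothesis for all `α`. -/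
theorem example_contracted : CriticalContracted exampleMap := by
  have h1 : Contracted exampleMap (X 0) :=
    (contracted_iff _ _).mpr ⟨1, ![1, 0, 0], one_pos, Pool.Agent.Helper26.DMC.Ex_contr ℂ,
      Pool.Agent.Helper26.DMC.Ex_dense ℂ⟩
  have h2 : jacobian exampleMap = X 0 ^ 2 := Pool.Agent.Helper26.DMC.Ex_jac ℂ
  refine ⟨?_, ?_⟩
  · rw [h2]
    exact pow_ne_zero _ (X_ne_zero 0)
  · intro g hg hdvd
    rw [h2] at hdvd
    have h3 : g ∣ X 0 := hg.prime.dvd_of_dvd_pow hdvd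
    obtain ⟨m, β, hm, hc, hβ⟩ := h1
    exact ⟨m, β, hm, fun i => h3.trans (hc i), hβ⟩

end Pool.Agent.Results.MP_295d38_ag.ContractedCritical
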