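import Mathlib
import Pool.Agent.Helper86.DML.CurveGap

/-!
# The dynamical Mordell-Lang conjecture for curves, up to logarithmically many exceptions

Let `Φ` be an endomorphism of a complex quasiprojective variety `X`, `α ∈ X`, and let `V` be a
closed subvariety such that `X ∩ V` has dimension at most one (for instance a curve, or any proper
closed subset if `X` is an irreducible surface). Then the return set `{n | Φ^n(α) ∈ V}` is the union
of finitely many arithmetic progressions and a set `R` which has at most `s` elements in each window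
`[n, q n]`, for some `q > 1`. In particular `R` has at most `C log n` elements up to `n`.

No assumption is made on `Φ`, which may be ramified anywhere, or on `α`.

Sketch of the proof. By the structure theorem for return sets (proved in
`Pool/Agent/Helper86/DML/Struct3.lean` by `p`-adic analysis), in each of finitely many residue
classes either the return times form a super-sparse set, or the class has a limit set `Z ⊆ V`, which
is `X ∩ V` itself or a point `w`. In the last case the orbit converges to `w` super-exponentially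
fast in some `p`-adic metric (`Cone.lean`, `Steps.lean`). The embedding of the field of definition
into the algebraic closure of `ℚ_p` is chosen so that its transcendence basis has an effective
measure of algebraic independence (`Trans.lean`, `Embed2.lean`). This gives a Liouville inequality
on the curve (`Curve.lean`, `Chart.lean`): if `x` and `Φ^l(x)` are on the curve then the distance
of `x` and `w` is at least `exp (- C ^ l)`. Comparing the two estimates, two return times `t < t + l`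
satisfy `l ≥ ε t - C` (`CurveGap.lean`).
-/

namespace Pool.Agent.Results.MP_295d38_ag.CurvesLog

open MvPolynomial Pool.Agent.Helper86.DML

/-- Zariski closed subsets of projective space -/
def ZClosed {N : ℕ} (V : Set (Projectivization ℂ (Fin (N + 1) → ℂ))) : Prop :=
  ∃ C : Set (MvPolynomial (Fin (N + 1)) ℂ), (∀ F ∈ C, ∃ d : ℕ, F.IsHomogeneous d) ∧
    ∀ p : Projectivization ℂ (Fin (N + 1) → ℂ), p ∈ V ↔ ∀ F ∈ C, MvPolynomial.eval p.rep F = 0

/-- `W` is covered by finitely many sets `W ∩ U i`, with `U i` closed, each of which is finite or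
an irreducible curve: a closed set contains `W ∩ U i` or meets it in finitely many points -/
def DimLEOne {N : ℕ} (W : Set (Projectivization ℂ (Fin (N + 1) → ℂ))) : Prop :=
  ∃ (m : ℕ) (U : Fin m → Set (Projectivization ℂ (Fin (N + 1) → ℂ))),
    (∀ i, ZClosed (U i)) ∧ W ⊆ ⋃ i, U i ∧
    ∀ i, ∀ C, ZClosed C → W ∩ U i ⊆ C ∨ (W ∩ U i ∩ C).Finite

lemma union_aps {Sp : Set ℕ → Prop} (hunion : ∀ {S T : Set ℕ}, Sp S → Sp T → Sp (S ∪ T))
    (hempty : Sp ∅) {m : ℕ} {S : Fin m → Set ℕ}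
    (h : ∀ i, ∃ (T : Finset (ℕ × ℕ)) (R : Set ℕ), Sp R ∧
      S i = {n : ℕ | ∃ t ∈ T, ∃ k : ℕ, n = t.1 + t.2 * k} ∪ R) :
    ∃ (T : Finset (ℕ × ℕ)) (R : Set ℕ), Sp R ∧
      (⋃ i, S i) = {n : ℕ | ∃ t ∈ T, ∃ k : ℕ, n = t.1 + t.2 * k} ∪ R := by
  classical
  induction m with
  | zero => exact ⟨∅, ∅, hempty, by simp⟩
  | succ m ih =>
    obtain ⟨T, R, hR, hTR⟩ := ih fun i => h i.succ
    obtain ⟨T', R', hR', hTR'⟩ := h 0
    refine ⟨T' ∪ T, R' ∪ R, hunion hR' hR, ?_⟩
    have h1 : (⋃ i, S i) = S 0 ∪ ⋃ i : Fin m, S i.succ := by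
      ext n
      simp only [Set.mem_iUnion, Set.mem_union]
      constructor
      · rintro ⟨i, hi⟩
        rcases Fin.eq_zero_or_eq_succ i with rfl | ⟨i', rfl⟩
        · exact Or.inl hi
        · exact Or.inr ⟨i', hi⟩
      · rintro (hi | ⟨i, hi⟩)
        · exact ⟨0, hi⟩
        · exact ⟨i.succ, hi⟩
    rw [h1, hTR, hTR']
    ext n
    simp only [Set.mem_union, Set.mem_ofPred_eq, Finset.mem_union]
    constructor
    · rintro ((⟨t, ht, k, hk⟩ | hn) | (⟨t, ht, k, hk⟩ | hn))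
      · exact Or.inl ⟨t, Or.inl ht, k, hk⟩
      · exact Or.inr (Or.inl hn)
      · exact Or.inl ⟨t, Or.inr ht, k, hk⟩
      · exact Or.inr (Or.inr hn)
    · rintro (⟨t, ht | ht, k, hk⟩ | (hn | hn))
      · exact Or.inl (Or.inl ⟨t, ht, k, hk⟩)
      · exact Or.inr (Or.inl ⟨t, ht, k, hk⟩)
      · exact Or.inl (Or.inr hn)
      · exact Or.inr (Or.inr hn)

/-- visits to a finite set -/
lemma finite_return {E : Type*} (Φ : E → E) (α : E) {F : Set E} (hF : F.Finite) :
    ∃ (T : Finset (ℕ × ℕ)) (R : Set ℕ), Gp R ∧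
      {n | Φ^[n] α ∈ F} = {n : ℕ | ∃ t ∈ T, ∃ k : ℕ, n = t.1 + t.2 * k} ∪ R := by
  by_cases hinj : Function.Injective fun n => Φ^[n] α
  · have hfin : {n | Φ^[n] α ∈ F}.Finite := hF.preimage hinj.injOn
    obtain ⟨b, hb⟩ := hfin.bddAbove
    exact ⟨∅, {n | Φ^[n] α ∈ F}, Gp.of_bounded (b + 1) fun k hk => Nat.lt_succ_of_le (hb hk),
      by simp⟩
  · have hex : ∃ a b, a < b ∧ Φ^[a] α = Φ^[b] α := by
      simp only [Function.Injective] at hinj
      push Not at hinj
      obtain ⟨a, b, hab, hne⟩ := hinj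
      rcases lt_or_gt_of_ne hne with h | h
      · exact ⟨a, b, h, hab⟩
      · exact ⟨b, a, h, hab.symm⟩
    obtain ⟨a, b, hlt, hab⟩ := hex
    obtain ⟨T, R, hR, hTR⟩ := ap_of_add (S := {n | Φ^[n] α ∈ F}) (a := a) (l := b - a)
      (by omega) (by
        intro k hk hkF
        obtain ⟨t, rfl⟩ := Nat.exists_eq_add_of_le hk
        have e : a + t + (b - a) = t + b := by omega
        show Φ^[a + t + (b - a)] α ∈ F
        rw [e, Function.iterate_add_apply, ← hab, ← Function.iterate_add_apply, add_comm t a]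
        exact hkF)
    exact ⟨T, R, Gp.of_bounded a hR, hTR⟩

/-- The return set of any orbit of any endomorphism to a subvariety of dimension at most one is a
finite union of arithmetic progressions, up to a set with boundedly many elements in geometric
windows. -/
theorem result :
  ∀ (N : ℕ) (X : Set (Projectivization ℂ (Fin (N + 1) → ℂ))),
    (∃ A B : Set (MvPolynomial (Fin (N + 1)) ℂ),
      (∀ F ∈ A, ∃ d : ℕ, F.IsHomogeneous d) ∧ (∀ F ∈ B, ∃ d : ℕ, F.IsHomogeneous d) ∧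
      ∀ p : Projectivization ℂ (Fin (N + 1) → ℂ), p ∈ X ↔
        ((∀ F ∈ A, MvPolynomial.eval p.rep F = 0) ∧ ∃ F ∈ B, MvPolynomial.eval p.rep F ≠ 0)) →
    ∀ Φ : Projectivization ℂ (Fin (N + 1) → ℂ) → Projectivization ℂ (Fin (N + 1) → ℂ),
      (∀ x ∈ X, Φ x ∈ X) →
      (∀ x ∈ X, ∃ (d e : ℕ) (F : Fin (N + 1) → MvPolynomial (Fin (N + 1)) ℂ)
          (g : MvPolynomial (Fin (N + 1)) ℂ),
          (∀ i, (F i).IsHomogeneous d) ∧ g.IsHomogeneous e ∧ MvPolynomial.eval x.rep g ≠ 0 ∧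
          ∀ y ∈ X, MvPolynomial.eval y.rep g ≠ 0 →
            (fun i : Fin (N + 1) => MvPolynomial.eval y.rep (F i)) ≠ 0 ∧
            (fun i : Fin (N + 1) => MvPolynomial.eval y.rep (F i)) ∈ (Φ y).submodule) →
      ∀ α ∈ X, ∀ V, ZClosed V → DimLEOne (X ∩ V) →
        ∃ (T : Finset (ℕ × ℕ)) (R : Set ℕ),
          {n : ℕ | Φ^[n] α ∈ V} = {n : ℕ | ∃ t ∈ T, ∃ k : ℕ, n = t.1 + t.2 * k} ∪ R ∧
          (∃ (s : ℕ) (q : ℝ), 1 < q ∧
            ∀ n : ℕ, {k : ℕ | n ≤ k ∧ (k : ℝ) ≤ q * n ∧ k ∈ R}.encard ≤ s) ∧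
          ∃ C : ℝ, ∀ n : ℕ, 2 ≤ n → (({k : ℕ | k ≤ n ∧ k ∈ R}.ncard : ℕ) : ℝ) ≤ C * Real.log n := by
  classical
  rintro N X ⟨A, B, hA, hB, hX⟩ Φ hΦX hΦ α hα V ⟨CV, hCV, hV⟩ ⟨m, U, hU, hcov, hcurve⟩
  -- finitely many forms suffice
  have hfinsub : ∀ B : Set (MvPolynomial (Fin (N + 1)) ℂ),
      ∃ B₀ : Finset (MvPolynomial (Fin (N + 1)) ℂ), (∀ F ∈ B₀, F ∈ B) ∧
        ∀ v : Fin (N + 1) → ℂ, (∀ F ∈ B₀, eval v F = 0) → ∀ F ∈ B, eval v F = 0 := by
    intro B
    obtain ⟨B₀, hB₀, hspan⟩ := (Submodule.fg_span_iff_fg_span_finset_subset B).mp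
      (IsNoetherian.noetherian (Submodule.span (MvPolynomial (Fin (N + 1)) ℂ) B))
    refine ⟨B₀, fun F hF => hB₀ hF, fun v hv F hF => ?_⟩
    apply eval_eq_zero_of_mem_span (V := (B₀ : Set (MvPolynomial (Fin (N + 1)) ℂ))) hv
    rw [← hspan]
    exact Submodule.subset_span hF
  obtain ⟨B₀, hB₀, hB₀z⟩ := hfinsub B
  have hX' : ∀ p : PP N, p ∈ X ↔
      ((∀ F ∈ A, eval p.rep F = 0) ∧ ∃ F ∈ B₀, eval p.rep F ≠ 0) := by
    intro p
    rw [hX p]
    refine and_congr_right fun _ => ⟨?_, fun ⟨F, hF, h⟩ => ⟨F, hB₀ F hF, h⟩⟩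
    rintro ⟨F, hF, hne⟩
    by_contra hcon
    push Not at hcon
    exact hne (hB₀z p.rep hcon F hF)
  have hBh : ∀ F ∈ B₀, ∃ d : ℕ, F.IsHomogeneous d := fun F hF => hB F (hB₀ F hF)
  have horb : ∀ i, Φ^[i] α ∈ X := by
    intro i
    induction i with
    | zero => exact hα
    | succ i ih =>
      rw [Function.iterate_succ_apply']
      exact hΦX _ ih
  have hset : {n : ℕ | Φ^[n] α ∈ V} = ⋃ i : Fin m, {n : ℕ | Φ^[n] α ∈ X ∩ V ∩ U i} := by
    ext n
    simp only [Set.mem_iUnion, Set.mem_ofPred_eq]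
    constructor
    · intro hn
      obtain ⟨i, hi⟩ := Set.mem_iUnion.mp (hcov ⟨horb n, hn⟩)
      exact ⟨i, ⟨horb n, hn⟩, hi⟩
    · rintro ⟨i, hi⟩
      exact hi.1.2
  have key : ∀ i : Fin m, ∃ (T : Finset (ℕ × ℕ)) (R : Set ℕ), Gp R ∧
      {n : ℕ | Φ^[n] α ∈ X ∩ V ∩ U i} =
        {n : ℕ | ∃ t ∈ T, ∃ k : ℕ, n = t.1 + t.2 * k} ∪ R := by
    intro i
    by_cases hfin : (X ∩ V ∩ U i).Finite
    · exact finite_return Φ α hfin
    · obtain ⟨CU, hCU, hUi⟩ := hU i
      obtain ⟨CW, hCW, hCWz⟩ := hfinsub (CV ∪ CU)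
      have hCWh : ∀ F ∈ CW, ∃ d : ℕ, F.IsHomogeneous d := by
        intro F hF
        rcases hCW F hF with h | h
        · exact hCV F h
        · exact hCU F h
      have hCvU : Cv X (CW : Set (MvPolynomial (Fin (N + 1)) ℂ)) = X ∩ V ∩ U i := by
        ext x
        constructor
        · rintro ⟨hxX, hx⟩
          have h1 := hCWz x.rep fun F hF => hx F (Finset.mem_coe.mpr hF)
          exact ⟨⟨hxX, (hV x).mpr fun F hF => h1 F (Or.inl hF)⟩,
            (hUi x).mpr fun F hF => h1 F (Or.inr hF)⟩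
        · rintro ⟨⟨hxX, hxV⟩, hxU⟩
          refine ⟨hxX, fun F hF => ?_⟩
          rcases hCW F (Finset.mem_coe.mp hF) with h | h
          · exact (hV x).mp hxV F h
          · exact (hUi x).mp hxU F h
      have hcv : IsCv X (CW : Set (MvPolynomial (Fin (N + 1)) ℂ)) := by
        refine ⟨by rw [hCvU]; exact hfin, fun Q hQ => ?_⟩
        rcases hcurve i {p | eval p.rep Q = 0} ⟨{Q}, by
          intro F hF
          rw [Set.mem_singleton_iff.mp hF]
          exact hQ, fun p => by simp⟩ with h | h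
        · left
          rw [hCvU]
          exact h
        · right
          rw [hCvU]
          exact h
      obtain ⟨T, R, hR, hTR⟩ := curve_gap X A hA hBh hX' Φ hΦX hΦ CW hCWh hcv α hα
      rw [hCvU] at hTR
      exact ⟨T, R, hR, hTR⟩
  obtain ⟨T, R, hR, hTR⟩ := union_aps (Sp := Gp) (fun h h' => h.union h')
    (Gp.of_bounded 0 (by simp)) key
  refine ⟨T, R, by rw [hset]; exact hTR, hR.final, hR.log⟩

end Pool.Agent.Results.MP_295d38_ag.CurvesLog
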