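import Mathlib
import Pool.Agent.Helper87.GT.Complex

set_option autoImplicit false

namespace Pool.Agent.Results.MP_295d38_ag.DominantMaps

open MvPolynomial

/-- The self-map of `𝔸ᴺ(ℂ) = ℂᴺ` given by `N` polynomials, `N = m + 1`. -/
noncomputable def polyMap {m : ℕ} (Φ : Fin (m + 1) → MvPolynomial (Fin (m + 1)) ℂ)
    (x : Fin (m + 1) → ℂ) : Fin (m + 1) → ℂ :=
  fun i => eval x (Φ i)

/-- The coefficient `a` of `x_N ^ d` in `Φ_N`. -/
noncomputable def coeffTop {m : ℕ} (d : ℕ)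
    (Φ : Fin (m + 1) → MvPolynomial (Fin (m + 1)) ℂ) : ℂ :=
  coeff (Finsupp.single (Fin.last m) d) (Φ (Fin.last m))

/-- The coefficients `g_k` of `x_k * x_N ^ (d - 1)` in `Φ_N`, for `k < N`. -/
noncomputable def rowTop {m : ℕ} (d : ℕ)
    (Φ : Fin (m + 1) → MvPolynomial (Fin (m + 1)) ℂ) (k : Fin m) : ℂ :=
  coeff (Finsupp.single k.castSucc 1 + Finsupp.single (Fin.last m) (d - 1)) (Φ (Fin.last m))

/-- The coefficients `c_i` of `x_N ^ e` in `Φ_i`, for `i < N`. -/
noncomputable def colLow {m : ℕ} (e : ℕ)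
    (Φ : Fin (m + 1) → MvPolynomial (Fin (m + 1)) ℂ) (i : Fin m) : ℂ :=
  coeff (Finsupp.single (Fin.last m) e) (Φ i.castSucc)

/-- The coefficients `A_ik` of `x_k * x_N ^ (e - 1)` in `Φ_i`, for `i, k < N`. -/
noncomputable def matLow {m : ℕ} (e : ℕ)
    (Φ : Fin (m + 1) → MvPolynomial (Fin (m + 1)) ℂ) : Matrix (Fin m) (Fin m) ℂ :=
  Matrix.of fun i k =>
    coeff (Finsupp.single k.castSucc 1 + Finsupp.single (Fin.last m) (e - 1)) (Φ i.castSucc)

/-- The component `Φ_N` has degree at most `d` and the others have degree at most `e`; the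
coefficient `a` of `x_N ^ d` in `Φ_N` is not zero; the matrix `((A, e c), (g, d a))`, the Jacobian
matrix of the forms of degree `e, …, e, d` at the point `(0, …, 0, 1)`, is invertible; and the
vectors `c, A c, …, A ^ (N - 2) c` are linearly independent. -/
structure Dominant {m : ℕ} (d e : ℕ) (Φ : Fin (m + 1) → MvPolynomial (Fin (m + 1)) ℂ) :
    Prop where
  degree_last : (Φ (Fin.last m)).totalDegree ≤ d
  degree_other : ∀ i : Fin m, (Φ i.castSucc).totalDegree ≤ e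
  top : coeffTop d Φ ≠ 0
  jacobian : (Matrix.fromBlocks (matLow e Φ) (Matrix.replicateCol Unit ((e : ℂ) • colLow e Φ))
    (Matrix.replicateRow Unit (rowTop d Φ))
    (Matrix.of fun _ _ : Unit => (d : ℂ) * coeffTop d Φ)).det ≠ 0
  cyclic : LinearIndependent ℂ fun j : Fin m => (matLow e Φ ^ (j : ℕ)).mulVec (colLow e Φ)

/-- The return set `{n : Φⁿ(α) ∈ V}` for the closed subvariety `V` of `𝔸ᴺ` over `ℂ` cut out by the
polynomials of the set `V`. -/
def returnSet {m : ℕ} (Φ : Fin (m + 1) → MvPolynomial (Fin (m + 1)) ℂ) (α : Fin (m + 1) → ℂ)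
    (V : Set (MvPolynomial (Fin (m + 1)) ℂ)) : Set ℕ :=
  {n | ∀ F ∈ V, eval ((polyMap Φ)^[n] α) F = 0}

/-- Slow growth of the orbit for the absolute value `v`: the numbers `log⁺ v(x)` for the coordinates
`x` of `Φⁿ(α)` are `O(1 + e + … + eⁿ)`. -/
def SlowAt {m : ℕ} (v : AbsoluteValue ℂ ℝ) (e : ℕ)
    (Φ : Fin (m + 1) → MvPolynomial (Fin (m + 1)) ℂ) (α : Fin (m + 1) → ℂ) : Prop :=
  ∃ C : ℝ, ∀ (n : ℕ) (i : Fin (m + 1)),
    Real.posLog (v ((polyMap Φ)^[n] α i)) ≤ C * ∑ j ∈ Finset.range (n + 1), (e : ℝ) ^ j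

/-- Slow growth of the heights over the number field `K`: the logarithmic Weil heights of the
coordinates of `Φⁿ(α)`, which lie in `K`, are `O(1 + e + … + eⁿ)`. -/
def SlowHeight {m : ℕ} (K : Subfield ℂ) [NumberField K] (e : ℕ)
    (Φ : Fin (m + 1) → MvPolynomial (Fin (m + 1)) ℂ) (α : Fin (m + 1) → ℂ) : Prop :=
  ∃ C : ℝ, ∀ (n : ℕ) (i : Fin (m + 1)), ∃ y : K, (y : ℂ) = (polyMap Φ)^[n] α i ∧
    Height.logHeight₁ y ≤ C * ∑ j ∈ Finset.range (n + 1), (e : ℝ) ^ j

/-- **A gap theorem for polynomial maps with one dominant component**: if infinitely many points of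
an orbit lie in a closed subvariety of `𝔸ᴺ` other than `𝔸ᴺ`, then the orbit grows slowly, for all
absolute values of `ℂ`, and with respect to the Weil height if the map and the point are defined
over a number field. -/
theorem result (m d e : ℕ) (he : 1 ≤ e) (hed : e < d)
    (Φ : Fin (m + 1) → MvPolynomial (Fin (m + 1)) ℂ) (hΦ : Dominant d e Φ)
    (α : Fin (m + 1) → ℂ) (V : Set (MvPolynomial (Fin (m + 1)) ℂ)) (hV : ∃ F ∈ V, F ≠ 0)
    (hinf : (returnSet Φ α V).Infinite) :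
    (∀ v : AbsoluteValue ℂ ℝ, SlowAt v e Φ α) ∧
      ∀ (K : Subfield ℂ) [NumberField K], (∀ i s, coeff s (Φ i) ∈ K) → (∀ i, α i ∈ K) →
        SlowHeight K e Φ α := by
  obtain ⟨F, hFV, hF0⟩ := hV
  have hdeg : ∀ i, (Φ i).totalDegree ≤ Pool.Agent.Helper26.GT.wd d e i := by
    intro i
    refine Fin.lastCases ?_ (fun i => ?_) i
    · rw [Pool.Agent.Helper26.GT.wd, if_pos rfl]
      exact hΦ.degree_last
    · rw [Pool.Agent.Helper26.GT.wd, if_neg (Fin.castSucc_lt_last i).ne]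
      exact hΦ.degree_other i
  have hinf' : {n | eval ((Pool.Agent.Helper86.MQ.pm Φ)^[n] α) F = 0}.Infinite := by
    refine hinf.mono fun n hn => ?_
    exact hn F hFV
  exact Pool.Agent.Helper87.GT.complex_gap he hed ⟨hdeg, hΦ.top, hΦ.jacobian, hΦ.cyclic⟩ α hF0
    hinf'

end Pool.Agent.Results.MP_295d38_ag.DominantMaps
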