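import Mathlib
import Pool.Agent.Helper86.RC.Main

set_option autoImplicit false

namespace Pool.Agent.Results.MP_295d38_ag.IntegralOrbits

open MvPolynomial NumberField

/-- The sequence `a` satisfies `a_{n+N} = f(a_n, …, a_{n+N-1})` for all `n`, where `N = m + 1`. -/
def Solves {K : Type} [Field K] {m : ℕ} (f : MvPolynomial (Fin (m + 1)) (𝓞 K)) (a : ℕ → K) :
    Prop :=
  ∀ n, a (n + (m + 1)) = aeval (fun i : Fin (m + 1) => a (n + i)) f

/-- For every embedding `σ` of `K` into `ℂ`, the form of degree `d` of `f`, with `σ` applied to its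
coefficients, has no zero `t = (t_1, …, t_N)` with `|t_i| ≤ 1` for all `i` and `t_N = 1`; if
`σ` is real, this is only required for real `t`. -/
def NoZeroOnFace {K : Type} [Field K] {m : ℕ} (d : ℕ) (f : MvPolynomial (Fin (m + 1)) (𝓞 K)) :
    Prop :=
  ∀ (σ : K →+* ℂ) (t : Fin (m + 1) → ℂ), (∀ i, ‖t i‖ ≤ 1) → t (Fin.last m) = 1 →
    (ComplexEmbedding.IsReal σ → ∀ i, (t i).im = 0) →
      eval t (MvPolynomial.map (σ.comp (algebraMap (𝓞 K) K)) (homogeneousComponent d f)) ≠ 0

/-- The set of the `n` for which `(a_n, …, a_{n+N-1})` lies in the closed subvariety of `𝔸ᴺ` over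
`ℂ` cut out by the polynomials of the set `V`; the number field `K` is embedded into `ℂ` by `τ`. -/
def returnSet {K : Type} [Field K] (τ : K →+* ℂ) {m : ℕ} (a : ℕ → K)
    (V : Set (MvPolynomial (Fin (m + 1)) ℂ)) : Set ℕ :=
  {n | ∀ F ∈ V, eval (fun i : Fin (m + 1) => τ (a (n + i))) F = 0}

/-- The closed subvariety cut out by `V` is not the whole space. -/
def Proper {m : ℕ} (V : Set (MvPolynomial (Fin (m + 1)) ℂ)) : Prop := ∃ F ∈ V, F ≠ 0

/-- **The dynamical Mordell-Lang conjecture for all integral orbits of a nonlinear recurrence**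
whose leading form has no zero on the face `t_N = 1` of the unit cube: every solution with integral
initial values, or with initial values whose denominators are prime to the coefficient of
`x_N ^ d`, is either eventually periodic or meets every closed subvariety other than `𝔸ᴺ` only
finitely often. -/
theorem result (K : Type) [Field K] [NumberField K] (τ : K →+* ℂ) (m d : ℕ) (hd : 2 ≤ d)
    (f : MvPolynomial (Fin (m + 1)) (𝓞 K)) (hf : f.totalDegree ≤ d)
    (hface : NoZeroOnFace d f)
    (hb : coeff (Finsupp.single 0 1 + Finsupp.single (Fin.last m) (d - 1)) f ≠ 0)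
    (a : ℕ → K) (ha : Solves f a) (c : 𝓞 K) (hc0 : c ≠ 0)
    (hc : IsCoprime c (coeff (Finsupp.single (Fin.last m) d) f))
    (hint : ∀ i, i ≤ m → ∃ b : 𝓞 K, (b : K) = c * a i) :
    (∃ M, 0 < M ∧ ∃ n₀, ∀ n, n₀ ≤ n → a (n + M) = a n) ∨
      ∀ V : Set (MvPolynomial (Fin (m + 1)) ℂ), Proper V → (returnSet τ a V).Finite := by
  rcases Pool.Agent.Helper86.RC.rc_main hd f hf hface hb a ha c hc0 hc hint τ with h | h
  · exact Or.inl h
  · right
    rintro V ⟨F, hFV, hF0⟩
    exact (h F hF0).subset fun n hn => hn F hFV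

end Pool.Agent.Results.MP_295d38_ag.IntegralOrbits
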