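import Mathlib
import Pool.Agent.Helper86.DML.Final
import Pool.Agent.Helper86.DML.Glue

/-!
# The dynamical Mordell-Lang conjecture up to super-sparse sets

Let `Φ` be an endomorphism of a complex quasiprojective variety `X` and `α ∈ X`. There are finitely
many irreducible closed subsets `Z 0, …, Z (M - 1)` of `X`, cyclically mapped to one another by `Φ`
(with dense image), such that for every closed `V` which does not contain `Z j` the return times of
`V` in the class `n ≡ n₀ + j mod M` form a super-sparse set: at most `s` elements in each window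
`[k, k + c^k)`, for some `c > 1`. If `Z j` lies in a closed invariant set along which `Φ` is
unramified, or is a point with unramified cycle, the orbit enters `Z j`. Return sets of the `V` whose
subsets `Z j` are all of this kind, or irreducible components of `V`, are finite unions of
arithmetic progressions up to a super-sparse set.
-/

namespace Pool.Agent.Results.MP_295d38_ag.SuperSparse

open MvPolynomial Pool.Agent.Helper86.DML

/-- Zariski closed subsets of projective space -/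
def ZClosed {N : ℕ} (V : Set (Projectivization ℂ (Fin (N + 1) → ℂ))) : Prop :=
  ∃ C : Set (MvPolynomial (Fin (N + 1)) ℂ), (∀ F ∈ C, ∃ d : ℕ, F.IsHomogeneous d) ∧
    ∀ p : Projectivization ℂ (Fin (N + 1) → ℂ), p ∈ V ↔ ∀ F ∈ C, MvPolynomial.eval p.rep F = 0

/-- `Φ` is unramified at the point `y` of `X`: near `y` it is given by forms `F i` (where `g` does
not vanish), and its differential at `y` kills no nonzero tangent vector of `X` at `y` -/
def Unramified {N : ℕ} (X : Set (Projectivization ℂ (Fin (N + 1) → ℂ)))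
    (Φ : Projectivization ℂ (Fin (N + 1) → ℂ) → Projectivization ℂ (Fin (N + 1) → ℂ))
    (y : Projectivization ℂ (Fin (N + 1) → ℂ)) : Prop :=
  ∃ (d e : ℕ) (F : Fin (N + 1) → MvPolynomial (Fin (N + 1)) ℂ)
    (g : MvPolynomial (Fin (N + 1)) ℂ),
    (∀ i, (F i).IsHomogeneous d) ∧ g.IsHomogeneous e ∧ MvPolynomial.eval y.rep g ≠ 0 ∧
    (∀ x ∈ X, MvPolynomial.eval x.rep g ≠ 0 →
      (fun i : Fin (N + 1) => MvPolynomial.eval x.rep (F i)) ≠ 0 ∧
      (fun i : Fin (N + 1) => MvPolynomial.eval x.rep (F i)) ∈ (Φ x).submodule) ∧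
    ∀ h : Fin (N + 1) → ℂ,
      (∀ E : MvPolynomial (Fin (N + 1)) ℂ, (∃ d : ℕ, E.IsHomogeneous d) →
        (∀ x ∈ X, MvPolynomial.eval x.rep E = 0) →
        ∑ a, h a * MvPolynomial.eval y.rep (MvPolynomial.pderiv a E) = 0) →
      (fun i : Fin (N + 1) =>
        ∑ a, h a * MvPolynomial.eval y.rep (MvPolynomial.pderiv a (F i))) ∈ (Φ y).submodule →
      h ∈ y.submodule

lemma Unramified.unramAt {N : ℕ} {X : Set (PP N)} {Φ : PP N → PP N} {y : PP N}
    (h : Unramified X Φ y) : UnramAt X Φ y := by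
  obtain ⟨d, e, F, g, h1, h2, h3, h4, h5⟩ := h
  exact ⟨d, e, F, g, h1, h2, h3, h4, fun h hE hF => h5 h (fun E hEh hEX =>
    hE E ⟨hEh, hEX⟩) hF⟩

/-- The structure theorem for return sets. -/
theorem result :
  ∀ (N : ℕ) (X : Set (Projectivization ℂ (Fin (N + 1) → ℂ))),
    (∃ A B : Set (MvPolynomial (Fin (N + 1)) ℂ),
      (∀ F ∈ A, ∃ d : ℕ, F.IsHomogeneous d) ∧ (∀ F ∈ B, ∃ d : ℕ, F.IsHomogeneous d) ∧
      ∀ p : Projectivization ℂ (Fin (N + 1) → ℂ), p ∈ X ↔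
        ((∀ F ∈ A, MvPolynomial.eval p.rep F = 0) ∧ ∃ F ∈ B, MvPolynomial.eval p.rep F ≠ 0)) →
    ∀ Φ : Projectivization ℂ (Fin (N + 1) → ℂ) → Projectivization ℂ (Fin (N + 1) → ℂ),
      (∀ x ∈ X, Φ x ∈ X) →
      (∀ x ∈ X, ∃ (d e : ℕ) (F : Fin (N + 1) → MvPolynomial (Fin (N + 1)) ℂ)
          (g : MvPolynomial (Fin (N + 1)) ℂ),
          (∀ i, (F i).IsHomogeneous d) ∧ g.IsHomogeneous e ∧ MvPolynomial.eval x.rep g ≠ 0 ∧
          ∀ y ∈ X, MvPolynomial.eval y.rep g ≠ 0 →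
            (fun i : Fin (N + 1) => MvPolynomial.eval y.rep (F i)) ≠ 0 ∧
            (fun i : Fin (N + 1) => MvPolynomial.eval y.rep (F i)) ∈ (Φ y).submodule) →
      -- `Y` is closed in `X`, invariant, and `Φ` is unramified at the points of `Y`
      ∀ Y : Set (Projectivization ℂ (Fin (N + 1) → ℂ)), (∃ W, ZClosed W ∧ Y = X ∩ W) →
        (∀ y ∈ Y, Φ y ∈ Y) → (∀ y ∈ Y, Unramified X Φ y) →
      ∀ α ∈ X,
        ∃ (n₀ M : ℕ) (Z : ℕ → Set (Projectivization ℂ (Fin (N + 1) → ℂ))), 1 ≤ M ∧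
          (∀ j, Z (j + M) = Z j ∧
            -- `Z j` is closed in `X`, nonempty and irreducible
            (∃ W, ZClosed W ∧ Z j = X ∩ W) ∧ (Z j).Nonempty ∧
            (∀ V₁ V₂, ZClosed V₁ → ZClosed V₂ → Z j ⊆ V₁ ∪ V₂ → Z j ⊆ V₁ ∨ Z j ⊆ V₂) ∧
            -- `Φ` maps `Z j` to a dense subset of `Z (j + 1)`
            (∀ x ∈ Z j, Φ x ∈ Z (j + 1)) ∧
            (∀ V, ZClosed V → (∀ x ∈ Z j, Φ x ∈ V) → Z (j + 1) ⊆ V) ∧
            -- the unramified cases
            (Z j ⊆ Y → ∀ k, Φ^[n₀ + j + M * k] α ∈ Z j) ∧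
            (∀ w, Z j = {w} → (∀ i, Unramified X Φ (Φ^[i] w)) →
              ∃ k, Φ^[n₀ + j + M * k] α = w)) ∧
          ∀ V, ZClosed V →
            -- the return times of `V` are super-sparse in the class of `j` if `Z j ⊄ V`
            (∀ j, ¬ Z j ⊆ V → ∃ (s : ℕ) (c : ℝ), 1 < c ∧ ∀ n : ℕ,
              {k : ℕ | n ≤ k ∧ (k : ℝ) < n + c ^ n ∧ Φ^[n₀ + j + M * k] α ∈ V}.encard ≤ s) ∧
            -- the whole return set
            ((∀ j, Z j ⊆ V → Z j ⊆ Y ∨ (∃ w, Z j = {w} ∧ ∀ i, Unramified X Φ (Φ^[i] w)) ∨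
                ∃ V', ZClosed V' ∧ X ∩ V ⊆ Z j ∪ V' ∧ ¬ Z j ⊆ V') →
              ∃ (T : Finset (ℕ × ℕ)) (R : Set ℕ) (s : ℕ) (c : ℝ), 1 < c ∧
                (∀ n : ℕ, {k : ℕ | n ≤ k ∧ (k : ℝ) < n + c ^ n ∧ k ∈ R}.encard ≤ s) ∧
                {n : ℕ | Φ^[n] α ∈ V} = {n : ℕ | ∃ t ∈ T, ∃ k : ℕ, n = t.1 + t.2 * k} ∪ R) := by
  classical
  rintro N X ⟨A, B, hA, hB, hX⟩ Φ hΦX hΦ Y ⟨W, ⟨D, hD, hW⟩, hYW⟩ hΦY hun α hα
  -- finitely many of the non-vanishing conditions suffice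
  obtain ⟨B₀, hB₀, hspan⟩ := (Submodule.fg_span_iff_fg_span_finset_subset B).mp
    (IsNoetherian.noetherian (Submodule.span (MvPolynomial (Fin (N + 1)) ℂ) B))
  have hX' : ∀ p : PP N, p ∈ X ↔
      ((∀ F ∈ A, eval p.rep F = 0) ∧ ∃ F ∈ B₀, eval p.rep F ≠ 0) := by
    intro p
    rw [hX p]
    refine and_congr_right fun _ => ⟨?_, fun ⟨F, hF, h⟩ => ⟨F, hB₀ hF, h⟩⟩
    rintro ⟨F, hF, hne⟩
    by_contra hcon
    push Not at hcon
    apply hne
    apply eval_eq_zero_of_mem_span (V := (B₀ : Set (MvPolynomial (Fin (N + 1)) ℂ))) hcon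
    rw [← hspan]
    exact Submodule.subset_span hF
  have hBh : ∀ F ∈ B₀, ∃ d : ℕ, F.IsHomogeneous d := fun F hF => hB F (hB₀ hF)
  have hY : ∀ p : PP N, p ∈ Y ↔ p ∈ X ∧ ∀ F ∈ D, eval p.rep F = 0 := by
    intro p
    rw [hYW, Set.mem_inter_iff, hW]
  obtain ⟨n₀, M, Z, hM, hZ⟩ := main_structure2 X A hA hBh hX' Φ hΦX hΦ Y D hD hY hΦY
    (fun y hy => (hun y hy).unramAt) α hα
  -- the point case
  have hpt : ∀ j w, Z j = {w} → (∀ i, Unramified X Φ (Φ^[i] w)) →
      ∃ k, Φ^[n₀ + j + M * k] α = w := by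
    intro j w hw hr
    rcases (hZ j).2.2.2.2.2.2.2.2 with h | ⟨w', hw', h⟩
    · exact absurd (by rw [hw]; exact Set.finite_singleton w) h
    · have e : w' = w := by
        rw [hw] at hw'
        exact (Set.singleton_injective hw').symm
      subst e
      exact h fun i => (hr i).unramAt
  have hsp : ∀ V, ZClosed V → ∀ j, ¬ Z j ⊆ V → SSp {k | Φ^[n₀ + j + M * k] α ∈ V} := by
    rintro V ⟨C, hC, hV⟩ j hj
    obtain ⟨x, hx, hxV⟩ := Set.not_subset.mp hj
    have h1 : ∃ F ∈ C, eval x.rep F ≠ 0 := by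
      by_contra hcon
      push Not at hcon
      exact hxV ((hV x).mpr hcon)
    refine ((hZ j).2.2.2.2.2.2.1 C hC ⟨x, hx, h1⟩).mono ?_
    intro k hk
    exact (hV _).mp hk
  -- the cycle stays in the limit sets
  have hiter : ∀ k j x, x ∈ Z j → Φ^[M * k] x ∈ Z j := by
    have h1 : ∀ i j x, x ∈ Z j → Φ^[i] x ∈ Z (j + i) := by
      intro i
      induction i with
      | zero => exact fun j x hx => hx
      | succ i ih =>
        intro j x hx
        rw [Function.iterate_succ_apply']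
        exact (hZ (j + i)).2.2.2.2.1 _ (ih j x hx)
    intro k j x hx
    have h2 := h1 (M * k) j x hx
    rwa [per_mul (f := Z) (fun j => (hZ j).1)] at h2
  have hclosed : ∀ (S : Set (PP N)) (E : Set (MvPolynomial (Fin (N + 1)) ℂ)),
      (∀ F ∈ E, ∃ d : ℕ, F.IsHomogeneous d) →
      (∀ p : PP N, p ∈ S ↔ p ∈ X ∧ ∀ F ∈ E, eval p.rep F = 0) →
      ∃ W, ZClosed W ∧ S = X ∩ W := by
    intro S E hE hS
    refine ⟨{p | ∀ F ∈ E, eval p.rep F = 0}, ⟨E, hE, fun p => Iff.rfl⟩, ?_⟩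
    ext p
    exact hS p
  refine ⟨n₀, M, Z, hM, fun j => ?_, fun V hVc => ⟨fun j hj => (hsp V hVc j hj).final, fun hV => ?_⟩⟩
  · obtain ⟨h1, ⟨E, hE, h2⟩, h3, h4, h5, h6, h7, h8, h9⟩ := hZ j
    refine ⟨h1, hclosed _ E hE h2, h3, ?_, h5, ?_, h8, hpt j⟩
    · rintro V₁ V₂ ⟨C₁, hC₁, hV₁⟩ ⟨C₂, hC₂, hV₂⟩ hsub
      rcases h4 C₁ C₂ hC₁ hC₂ (fun x hx => (hsub hx).imp (hV₁ x).mp (hV₂ x).mp) with h | h
      · exact Or.inl fun x hx => (hV₁ x).mpr (h x hx)
      · exact Or.inr fun x hx => (hV₂ x).mpr (h x hx)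
    · rintro V ⟨C, hC, hV⟩ hsub x hx
      exact (hV x).mpr (h6 C hC (fun y hy => (hV _).mp (hsub y hy)) x hx)
  · have key : ∀ j, ∃ (T : Finset (ℕ × ℕ)) (R : Set ℕ), SSp R ∧
        {k | n₀ + j + M * k ∈ {n : ℕ | Φ^[n] α ∈ V}} =
          {n : ℕ | ∃ t ∈ T, ∃ k : ℕ, n = t.1 + t.2 * k} ∪ R := by
      intro j
      have hall : ∀ k₁, Φ^[n₀ + j + M * k₁] α ∈ Z j → Z j ⊆ V →
          ∃ (T : Finset (ℕ × ℕ)) (R : Set ℕ), SSp R ∧
            {k | n₀ + j + M * k ∈ {n : ℕ | Φ^[n] α ∈ V}} =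
            {n : ℕ | ∃ t ∈ T, ∃ k : ℕ, n = t.1 + t.2 * k} ∪ R := by
        intro k₁ hk₁ hsub
        obtain ⟨T, R, hR, hTR⟩ := eventually_all
          (S := {k | n₀ + j + M * k ∈ {n : ℕ | Φ^[n] α ∈ V}}) (a := k₁) (by
            intro k hk
            obtain ⟨t, rfl⟩ := Nat.exists_eq_add_of_le hk
            apply hsub
            have e : n₀ + j + M * (k₁ + t) = M * t + (n₀ + j + M * k₁) := by ring
            rw [e, Function.iterate_add_apply]
            exact hiter t j _ hk₁)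
        exact ⟨T, R, SSp.of_bounded k₁ hR, hTR⟩
      by_cases hj : Z j ⊆ V
      · rcases hV j hj with h | ⟨w, hw, hr⟩ | ⟨V', hV', hVV', hjV'⟩
        · exact hall 0 ((hZ j).2.2.2.2.2.2.2.1 h 0) hj
        · obtain ⟨k, hk⟩ := hpt j w hw hr
          exact hall k (by rw [hk, hw]; rfl) hj
        · by_cases hex : ∃ k, Φ^[n₀ + j + M * k] α ∈ Z j
          · obtain ⟨k, hk⟩ := hex
            exact hall k hk hj
          · push Not at hex
            refine ⟨∅, {k | n₀ + j + M * k ∈ {n : ℕ | Φ^[n] α ∈ V}}, ?_, by simp⟩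
            refine (hsp V' hV' j hjV').mono ?_
            intro k hk
            have horb : ∀ i, Φ^[i] α ∈ X := by
              intro i
              induction i with
              | zero => exact hα
              | succ i ih =>
                rw [Function.iterate_succ_apply']
                exact hΦX _ ih
            rcases hVV' ⟨horb _, hk⟩ with h | h
            · exact absurd h (hex k)
            · exact h
      · exact ⟨∅, {k | n₀ + j + M * k ∈ {n : ℕ | Φ^[n] α ∈ V}}, hsp V hVc j hj, by simp⟩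
    obtain ⟨T, R, hR, hTR⟩ := glue SSp (fun h hs => h.mono hs) (fun h h' => h.union h')
      (fun a h => SSp.of_bounded a h) (fun h a M hM => h.reindex a M hM) hM key
    obtain ⟨s, c, hc, hs⟩ := hR.final
    exact ⟨T, R, s, c, hc, hs, hTR⟩

end Pool.Agent.Results.MP_295d38_ag.SuperSparse
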